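import Pool.Agent.Helper54.DT.StmtsS

set_option autoImplicit false

/-! EXT: extraction of the atomic formulas. -/

namespace Pool.Agent.Helper79.DCT

open Pool.Agent.Helper54.DT Pool.Agent.Helper54.ETR Pool.Agent.Helper54.Poly

/-- a record -/
abbrev ext_R := ℕ × ((Bool × Bool) × (List Tok × List Tok))

/-- values -/
abbrev ext_V := (ℕ × List Tok) × (Bool × List ext_R)

/-- value of a term -/
def ext_tm (d : ℕ) (l : List Tok) : ext_V := ((d, l), (false, []))

/-- value of a formula -/
def ext_fm (b : Bool) (r : List ext_R) : ext_V := ((0, []), (b, r))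

/-- truth value of an atomic formula -/
def ext_bit (t : Tok) (s : Bool × Bool) : Bool :=
  match t with
  | Tok.lt => !s.1 && s.2
  | Tok.le => s.1 || s.2
  | Tok.eq => s.1
  | Tok.ge => s.1 || !s.2
  | _ => !s.1 && !s.2

/-- value of an atomic formula -/
def ext_at (t : Tok) (w : List Bool) (k : ℕ) (v v' : ext_V) : ext_V :=
  ext_fm (ext_bit t (sgb w k)) [(max v.1.1 v'.1.1, (sgb w k, (v.1.2, v'.1.2)))]

/-- unary operations -/
def ext_c1 (t : Tok) (v : ext_V) : ext_V :=
  match t with
  | Tok.x => ext_tm 1 (Tok.x :: v.1.2)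
  | Tok.not => ext_fm (!v.2.1) v.2.2
  | _ => ext_tm 0 (Tok.s :: v.1.2)

/-- binary operations -/
def ext_c2 (t : Tok) (w : List Bool) (k : ℕ) (v v' : ext_V) : ext_V :=
  match t with
  | Tok.add => ext_tm (max v.1.1 v'.1.1) (Tok.add :: (v.1.2 ++ v'.1.2))
  | Tok.sub => ext_tm (max v.1.1 v'.1.1) (Tok.sub :: (v.1.2 ++ v'.1.2))
  | Tok.mul => ext_tm (v.1.1 + v'.1.1) (Tok.mul :: (v.1.2 ++ v'.1.2))
  | Tok.and => ext_fm (v.2.1 && v'.2.1) (v.2.2 ++ v'.2.2)
  | Tok.or => ext_fm (v.2.1 || v'.2.1) (v.2.2 ++ v'.2.2)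
  | t => ext_at t w k v v'

/-- the algebra -/
def ext_A : Alg (List Bool) ext_V where
  c0 t _ _ := ext_tm 0 [t]
  c1 t _ _ v := ext_c1 t v
  c2 t w k v v' := ext_c2 t w k v v'

/-- its semantics -/
def ext_sem (w : List Bool) : Ob → ℕ → ext_V
  | Ob.num i, _ => ext_tm 0 (List.replicate i Tok.s ++ [Tok.e])
  | Ob.tm t, _ => ext_tm (t.deg ∅) t.toks
  | Ob.fm p, k => ext_fm (bev w p k) ((recs w p k).map rk)

theorem ext_sem_ok (w : List Bool) : ext_A.Sem w (ext_sem w) where
  zero _ := rfl
  one _ := rfl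
  e _ := rfl
  s i k := rfl
  x i k := rfl
  not p k := rfl
  add _ _ _ := rfl
  sub _ _ _ := rfl
  mul _ _ _ := rfl
  lt _ _ _ := rfl
  le _ _ _ := rfl
  eq _ _ _ := rfl
  ge _ _ _ := rfl
  gt _ _ _ := rfl
  and a b k := by
    simp only [ext_sem, ext_A, ext_c2, bev, recs, List.map_append, ext_fm]
  or a b k := by
    simp only [ext_sem, ext_A, ext_c2, bev, recs, List.map_append, ext_fm]

section pt

variable {α : Type} [TEnc α]

theorem ext_PTtm {d : α → ℕ} {l : α → List Tok} (hd : PT d) (hl : PT l) :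
    PT (fun a => ext_tm (d a) (l a)) :=
  (hd.pair hl).pair (PT.const (false, []))

theorem ext_PTfm {b : α → Bool} {r : α → List ext_R} (hb : PT b) (hr : PT r) :
    PT (fun a => ext_fm (b a) (r a)) :=
  PT.pair (PT.const (0, [])) (hb.pair hr)

theorem ext_PTsgb {w : α → List Bool} {k : α → ℕ} (hw : PT w) (hk : PT k) :
    PT (fun a => sgb (w a) (k a)) :=
  (PT.getD (PT.mul (PT.const 2) hk) hw (PT.const false)).pair
    (PT.getD (PT.add (PT.mul (PT.const 2) hk) (PT.const 1)) hw (PT.const false))

theorem ext_PTbit (t : Tok) {s : α → Bool × Bool} (hs : PT s) :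
    PT (fun a => ext_bit t (s a)) :=
  PTg (g := ext_bit t) hs

end pt

theorem ext_A_pt : ext_A.IsPT where
  p0 t := PT.const _
  p1 t := by
    have h1 : PT (fun z : (List Bool × ℕ) × ext_V => z.2.1.2) := PT.id.snd.fst.snd
    cases t
    case x => exact ext_PTtm (PT.const 1) (PT.lcons (PT.const Tok.x) h1)
    case not => exact ext_PTfm (PT.not PT.id.snd.snd.fst) PT.id.snd.snd.snd
    all_goals exact ext_PTtm (PT.const 0) (PT.lcons (PT.const Tok.s) h1)
  p2 t := by
    have w0 : PT (fun z : (List Bool × ℕ) × (ext_V × ext_V) => z.1.1) := PT.id.fst.fst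
    have k0 : PT (fun z : (List Bool × ℕ) × (ext_V × ext_V) => z.1.2) := PT.id.fst.snd
    have d1 : PT (fun z : (List Bool × ℕ) × (ext_V × ext_V) => z.2.1.1.1) :=
      PT.id.snd.fst.fst.fst
    have l1 : PT (fun z : (List Bool × ℕ) × (ext_V × ext_V) => z.2.1.1.2) :=
      PT.id.snd.fst.fst.snd
    have b1 : PT (fun z : (List Bool × ℕ) × (ext_V × ext_V) => z.2.1.2.1) :=
      PT.id.snd.fst.snd.fst
    have r1 : PT (fun z : (List Bool × ℕ) × (ext_V × ext_V) => z.2.1.2.2) :=
      PT.id.snd.fst.snd.snd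
    have d2 : PT (fun z : (List Bool × ℕ) × (ext_V × ext_V) => z.2.2.1.1) :=
      PT.id.snd.snd.fst.fst
    have l2 : PT (fun z : (List Bool × ℕ) × (ext_V × ext_V) => z.2.2.1.2) :=
      PT.id.snd.snd.fst.snd
    have b2 : PT (fun z : (List Bool × ℕ) × (ext_V × ext_V) => z.2.2.2.1) :=
      PT.id.snd.snd.snd.fst
    have r2 : PT (fun z : (List Bool × ℕ) × (ext_V × ext_V) => z.2.2.2.2) :=
      PT.id.snd.snd.snd.snd
    have hs := ext_PTsgb w0 k0
    have hT : ∀ t : Tok, PT (fun z : (List Bool × ℕ) × (ext_V × ext_V) =>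
        (t :: (z.2.1.1.2 ++ z.2.2.1.2) : List Tok)) :=
      fun t => PT.lcons (PT.const t) (PT.append l1 l2)
    have hA : ∀ t : Tok, PT (fun z : (List Bool × ℕ) × (ext_V × ext_V) =>
        ext_at t z.1.1 z.1.2 z.2.1 z.2.2) := fun t =>
      ext_PTfm (ext_PTbit t hs) (PT.lcons ((PTmax d1 d2).pair (hs.pair (l1.pair l2)))
        (PT.const []))
    cases t
    case add => exact ext_PTtm (PTmax d1 d2) (hT _)
    case sub => exact ext_PTtm (PTmax d1 d2) (hT _)
    case mul => exact ext_PTtm (PT.add d1 d2) (hT _)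
    case and => exact ext_PTfm (PT.and b1 b2) (PT.append r1 r2)
    case or => exact ext_PTfm (PT.or b1 b2) (PT.append r1 r2)
    all_goals exact hA _

theorem ext_deg_le (t : Term) : t.deg ∅ ≤ t.toks.length := by
  induction t with
  | zero => simp [Term.deg]
  | one => simp [Term.deg]
  | var i => simp [Term.deg, Term.toks]
  | add a b iha ihb | sub a b iha ihb =>
    simp only [Term.deg, Term.toks, List.length_cons, List.length_append]
    omega
  | mul a b iha ihb =>
    simp only [Term.deg, Term.toks, List.length_cons, List.length_append]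
    omega

theorem ext_sz_rec (b : Bool × Bool) (s t : Term) :
    sz ([rk (max (s.deg ∅) (t.deg ∅), (b, (s, t)))] : List ext_R) ≤
      20 * (s.toks.length + t.toks.length) + 15 := by
  have h1 := ext_deg_le s
  have h2 := ext_deg_le t
  have h3 := sz_toks s.toks
  have h4 := sz_toks t.toks
  have h5 := sz_kind b
  have h6 : sz (rk (max (s.deg ∅) (t.deg ∅), (b, (s, t)))) = sz (max (s.deg ∅) (t.deg ∅)) +
      (sz b + (sz s.toks + sz t.toks + 1) + 1) + 1 := by
    simp only [rk]
    rw [sz_pair, sz_pair b, sz_pair s.toks]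
  rw [sz_cons, sz_nil, h6, sz_nat]
  omega

theorem ext_sz_recs (w : List Bool) (p : Form) : ∀ k : ℕ,
    sz ((recs w p k).map rk) ≤ 20 * p.toks.length + 1 := by
  induction p with
  | lt s t | le s t | eq s t | ge s t | gt s t =>
    intro k
    have h := ext_sz_rec (sgb w (pos s t k)) s t
    simp only [recs, List.map_cons, List.map_nil, Form.toks, List.length_cons, List.length_append]
    omega
  | and a b iha ihb | or a b iha ihb =>
    intro k
    have h1 := iha (b.toks.length + k)
    have h2 := ihb k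
    have h3 := sz_append ((recs w a (b.toks.length + k)).map rk) ((recs w b k).map rk)
    simp only [recs, List.map_append, Form.toks, List.length_cons, List.length_append]
    omega
  | not a iha =>
    intro k
    have h1 := iha k
    simp only [recs, Form.toks, List.length_cons]
    omega

theorem ext_sem_sz (w : List Bool) (o : Ob) (k L : ℕ) (h : o.toks.length + k ≤ L) :
    sz (ext_sem w o k) ≤ 20 * L + 14 := by
  cases o with
  | num i =>
    have h1 := sz_toks (List.replicate i Tok.s ++ [Tok.e])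
    simp only [Ob.toks, List.length_append, List.length_replicate, List.length_cons,
      List.length_nil] at h h1
    simp only [ext_sem, ext_tm, sz_pair, sz_nil, sz_false, sz_nat]
    omega
  | tm t =>
    have h1 := sz_toks t.toks
    have h2 := ext_deg_le t
    simp only [Ob.toks] at h
    simp only [ext_sem, ext_tm, sz_pair, sz_nil, sz_false, sz_nat]
    omega
  | fm p =>
    have h1 := ext_sz_recs w p k
    have h2 := sz_bool (bev w p k)
    simp only [Ob.toks] at h
    simp only [ext_sem, ext_fm, sz_pair, sz_nil, sz_nat]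
    omega

theorem ext_PTst {α : Type} [TEnc α] {w : α → List Bool} {l : α → List Tok} (hw : PT w)
    (hl : PT l) : PT (fun a => astate ext_A (w a) (l a)) := by
  obtain ⟨L, hL⟩ := hl.bound
  refine PTastate ext_A_pt hw hl ext_sem ext_sem_ok (20 * L + 14) ?_
  intro a o k hk
  have h1 := ext_sem_sz (w a) o k (L.eval (sz a)) (hk.trans ((length_le_sz _).trans (hL a)))
  refine h1.trans (le_of_eq ?_)
  simp only [Polynomial.eval_add, Polynomial.eval_mul, Polynomial.eval_ofNat]

theorem ext_top (w : List Bool) (φ : Form) :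
    topV (ext_tm 0 []) (astate ext_A w φ.toks) = ext_fm (bev w φ 0) ((recs w φ 0).map rk) := by
  have h := parse_form φ [] [] rfl
  rw [List.append_nil] at h
  rw [astate_eq (ext_sem_ok w), h]
  rfl

theorem st_EXT : ST_EXT := by
  refine ⟨fun z => if ((tk z.1).1.isEmpty && isForm (astate A2 0 (tk z.1).2)) = true then
    some (topV (ext_tm 0 []) (astate ext_A z.2 (tk z.1).2)).2 else none, ?_, ?_⟩
  · exact PT.ite (PTisValid PT.id.fst) (PT.osome (PTtopV _ (ext_PTst PT.id.snd
      (PTtk PT.id.fst).snd)).snd) (PT.const _)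
  · intro w
    refine ⟨?_, ?_⟩
    · intro φ
      have h4 := (decode_iff φ.code φ).1 rfl
      have hc : ((tk φ.code).1.isEmpty && isForm (astate A2 0 (tk φ.code).2)) = true := by
        rw [Bool.and_eq_true, List.isEmpty_iff, isForm_iff]
        exact ⟨h4.1, φ, h4.2⟩
      simp only [if_pos hc]
      rw [Form.code, tk_complete, ext_top]
      rfl
    · intro u hu
      have hc : ¬ ((tk u).1.isEmpty && isForm (astate A2 0 (tk u).2)) = true := by
        rw [Bool.and_eq_true, List.isEmpty_iff, isForm_iff]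
        rintro ⟨h1, φ, h2⟩
        exact hu φ ((decode_iff u φ).2 ⟨h1, h2⟩)
      simp only [if_neg hc]

end Pool.Agent.Helper79.DCT
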